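import Pool.Agent.Helper12.EK.Defs
import Pool.Agent.Helper38.EK.Rand

/-!
# EK, blocks K2 and K3: hitting the differences of pairs in the old orbits, and the orbital argument
-/

set_option autoImplicit false
set_option linter.unusedSectionVars false

namespace Pool.Agent.Helper12.EK

open Pool.Agent.Helper6.MC

variable {M Col : Type} [Fintype M] [DecidableEq M] [DecidableEq Col] {c : M → M → Col}

/-- hitting the differences of pairs in the old orbits -/
theorem hit_orb {A₀ : Finset M} {s q L : ℕ} (hq : 1 ≤ q)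
    (hs : ∀ x, (Orb c A₀ x).card ≤ s) (hL : s * (q - 1) ^ (L + 1) * q ≤ q ^ (L + 1)) :
    ∃ A, A₀ ⊆ A ∧ q * A.card ≤ q * A₀.card + 2 * Fintype.card M ∧ HitO c A L := by
  classical
  obtain ⟨B, hB, hB2⟩ := Pool.Agent.Helper38.EK.hitting (q := q) (B := s) (L := L + 1) hq
    (fun x => ((Orb c A₀ x).filter (fun y => L < (Df c x y).card)).image (fun y => Df c x y))
    (fun x => (Finset.card_image_le.trans (Finset.card_filter_le _ _)).trans (hs x))
    (fun x D hD => by
      obtain ⟨y, hy, rfl⟩ := Finset.mem_image.1 hD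
      exact (Finset.mem_filter.1 hy).2)
    (by
      calc s * q * (q - 1) ^ (L + 1) = s * (q - 1) ^ (L + 1) * q := by ring
        _ ≤ _ := hL)
  refine ⟨A₀ ∪ B, Finset.subset_union_left, ?_, ?_⟩
  · calc q * (A₀ ∪ B).card ≤ q * (A₀.card + B.card) := Nat.mul_le_mul_left _ (Finset.card_union_le _ _)
      _ = q * A₀.card + q * B.card := by ring
      _ ≤ _ := by omega
  · intro x y hy
    by_contra hcon
    rw [not_le] at hcon
    obtain ⟨g, hg, hgx⟩ := mem_Orb.1 hy
    by_cases hx : x ∈ B
    · have h1 : g x = x := hg.2 x (Finset.mem_union_right _ hx)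
      rw [h1] at hgx
      subst hgx
      unfold Df at hcon
      simp at hcon
    · have hy0 : y ∈ Orb c A₀ x := Orb_mono Finset.subset_union_left x hy
      obtain ⟨z, hz, hzB⟩ := hB2 x hx (Df c x y)
        (Finset.mem_image.2 ⟨y, Finset.mem_filter.2 ⟨hy0, hcon⟩, rfl⟩)
      have h1 : g z = z := hg.2 z (Finset.mem_union_right _ hzB)
      have h2 := hg.1 x z
      rw [hgx, h1] at h2
      exact (Finset.mem_filter.1 hz).2 h2.symm

/-- the orbital argument: a colour which is not constant on `Orb x × Orb z` makes `Orb z` small -/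
theorem orbital {A : Finset M} {L : ℕ} (hH : HitO c A L) {x z : M}
    (h : (Orb c A x).card ^ 2 * L < (Orb c A z).card) :
    ∀ x' ∈ Orb c A x, ∀ z' ∈ Orb c A z, c x' z' = c x z := by
  classical
  intro x' hx' z' hz'
  by_contra hcon
  obtain ⟨g, hg, hgz⟩ := mem_Orb.1 hz'
  -- the same at `z`
  have h1 : c (g.symm x') z ≠ c x z := by
    have h2 := hg.1 (g.symm x') z
    rw [Equiv.apply_symm_apply, hgz] at h2
    rw [← h2]
    exact hcon
  have hx2 : g.symm x' ∈ Orb c A x := map_Orb hx' hg.inv
  -- every element of the orbit of `z` is a difference of a pair in the orbit of `x`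
  have h3 : Orb c A z ⊆ ((Orb c A x) ×ˢ (Orb c A x)).biUnion (fun p => Df c p.1 p.2) := by
    intro w hw
    obtain ⟨f, hf, hfz⟩ := mem_Orb.1 hw
    rw [Finset.mem_biUnion]
    refine ⟨(f (g.symm x'), f x), Finset.mem_product.2 ⟨map_Orb hx2 hf, map_Orb (self_Orb x) hf⟩, ?_⟩
    unfold Df
    rw [Finset.mem_filter]
    refine ⟨Finset.mem_univ _, ?_⟩
    show c (f (g.symm x')) w ≠ c (f x) w
    rw [← hfz, hf.1, hf.1]
    exact h1
  have h4 : (Orb c A z).card ≤ (Orb c A x).card ^ 2 * L := by
    refine (Finset.card_le_card h3).trans (Finset.card_biUnion_le.trans ?_)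
    refine (Finset.sum_le_card_nsmul _ _ L ?_).trans ?_
    · intro p hp
      rw [Finset.mem_product] at hp
      refine hH p.1 p.2 ?_
      rw [Orb_eq hp.1]
      exact hp.2
    · rw [Finset.card_product, smul_eq_mul, pow_two]
  omega

end Pool.Agent.Helper12.EK
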